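import Pool.Agent.H8.T4.SB
import Pool.Agent.H96.T3.BOX

/-!
# T4: equal distribution of all polynomials modulo an ideal (row EQB)
-/

set_option autoImplicit false

namespace Pool.T4

open Polynomial Matrix Pool.HYP Pool.TOW Pool.AVS Pool.T1 Pool.T2 Pool.T3 IsDedekindDomain

/-- **EQB.** -/
theorem eqb : EQBStmt := by
  classical
  intro R _ _ K _ _ _ O π hR hCU C₀ hC g j h I r hI hc hrd
  have hfin : ∀ m : ℤ, (Lm R O π m).Finite := fun m => (hCU m).1
  have hq := qq_gt hR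
  have hset : {f ∈ AllU R O π g j h | Zer I (f - r)} = {f : R[X] | f.natDegree ≤ 2 * g + 2 ∧
      ∀ n ≤ 2 * g + 2, f.coeff n ∈ {a ∈ Lm R O π ((j + (2 * g + 2 - n) * h : ℕ) : ℤ) |
        a - r.coeff n ∈ I}} := by
    ext f
    rw [Set.mem_ofPred_eq, allU_eq]
    simp only [Zer, Set.mem_ofPred_eq, coeff_sub]
    constructor
    · rintro ⟨⟨hd, hA⟩, hz⟩
      exact ⟨hd, fun n hn => ⟨hA n hn, hz n⟩⟩
    · rintro ⟨hd, hA⟩
      refine ⟨⟨hd, fun n hn => (hA n hn).1⟩, fun n => ?_⟩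
      rcases le_or_gt n (2 * g + 2) with hn | hn
      · exact (hA n hn).2
      · rw [coeff_eq_zero_of_natDegree_lt (by omega), coeff_eq_zero_of_natDegree_lt (by omega),
          sub_self]
        exact I.zero_mem
  have h1 := (countPl (R := R) (2 * g + 2)
    (fun n => {a ∈ Lm R O π ((j + (2 * g + 2 - n) * h : ℕ) : ℤ) | a - r.coeff n ∈ I})
    (fun n _ => (hfin _).subset (Set.sep_subset _ _))).2
  have h2 := (countPl (R := R) (2 * g + 2)
    (fun n => Lm R O π ((j + (2 * g + 2 - n) * h : ℕ) : ℤ)) (fun n _ => hfin _)).2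
  rw [hset, h1, allU_eq, h2]
  have h3 : ∀ n ∈ Finset.range (2 * g + 2 + 1),
      (Lm R O π ((j + (2 * g + 2 - n) * h : ℕ) : ℤ)).ncard =
      {a ∈ Lm R O π ((j + (2 * g + 2 - n) * h : ℕ) : ℤ) | a - r.coeff n ∈ I}.ncard *
        Nat.card (R ⧸ I) := by
    intro n _
    exact (hC I (j + (2 * g + 2 - n) * h) hI
      (hc.trans (Nat.pow_le_pow_right hq.le (Nat.le_add_right _ _))) (r.coeff n)).symm
  rw [Finset.prod_congr rfl h3, Finset.prod_mul_distrib, Finset.prod_const, Finset.card_range]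

end Pool.T4
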